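import Pool.Agent.Helper97.PR.Almost
import Pool.Agent.Helper97.PR.FDatTwo

/-!
# Almost all solutions come down (Q2)

THEOREM. For the recurrence `x_(n+1) = (x_n - x_(n-1))/2` (even sum), `x_(n+1) = - x_n - x_(n-1)` (odd sum) all but
`C R^(2-δ)` of the pairs of coprime integers in `[-R, R]^2` have a solution with two consecutive terms of absolute
value at most `max(|x_0|, |x_1|)^(61/100)`.

Proof. On pairs of odd integers the accelerated map is `A u = (b, (b-a)/2)` or `B u = ((a-3b)/2, b)`, both of
determinant `1/2`. (1) A weight `G` on 1600 cones (certificate checked by the kernel) gives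
`f(A u) f(B u) ≤ κ f(u)^2` for `f = G Q`, `Q = x^2 - xy + 2y^2`, `κ = 0.580993`, so that for some `μ > 0`
`f(A u)^μ + f(B u)^μ ≤ r f(u)^μ` with `r` small: few words `w` of length `n` have a product `M_w` of norm
larger than `R^(θ-1)`. (2) Two pairs with the same word of length `n` have a determinant divisible by `2^n`; for
`R^2 ≤ 2^n ≤ 2 R^2` at most `C R^2` ordered pairs of coprime pairs in the box have the same word. By
Cauchy-Schwarz few pairs have a bad word; for the others `n` accelerated steps lead to the box of side `c R^θ`.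
Pairs of different parity reach a pair of odd integers after at most two steps.
-/

set_option autoImplicit false

namespace Pool.Agent.Results.MP_2a27b1_nt.AlmostAllDescendQ2

open Pool.Agent.Helper97.PR

theorem result : ∃ δ C : ℝ, 0 < δ ∧ ∀ R : ℕ, 1 ≤ R →
    ((stayLarge (-1) (61 / 100) R).ncard : ℝ) ≤ C * (R : ℝ) ^ (2 - δ) := by
  refine almost (tabF_of_chk chkFTwo) (Or.inr rfl) rfl (by norm_num) (by norm_num) ?_
  have hk : ((pmFTwo.kN : ℕ) : ℝ) = 4647938 := by
    have : pmFTwo.kN = 4647938 := rfl
    rw [this]; norm_num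
  rw [hk]
  have h1 : (((2 : ℝ) ^ (1 - 61 / 100 : ℝ)) ^ 2) ^ 100 = 2 ^ 78 := by
    rw [← pow_mul, ← Real.rpow_natCast, ← Real.rpow_mul (by norm_num)]
    norm_num
  have h0 : (0 : ℝ) ≤ 4647938 / 8000000 * ((2 : ℝ) ^ (1 - 61 / 100 : ℝ)) ^ 2 := by positivity
  refine lt_of_pow_lt_pow_left₀ 100 (by norm_num) ?_
  rw [mul_pow, h1]
  norm_num

end Pool.Agent.Results.MP_2a27b1_nt.AlmostAllDescendQ2
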