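import Pool.Agent.Helper97.PR.Fin
import Pool.Agent.Helper97.PR.DatOne

/-!
# Many pairs with an eventually periodic solution (Q1)

THEOREM. There is `c > 0` such that for every `R ≥ 1` at least `c R^(8/5)` pairs of coprime integers in
`[-R, R]^2` have an eventually periodic solution of the recurrence `x_(n+1) = (x_n - x_(n-1))/2` (even sum),
`x_(n+1) = x_n + x_(n-1)` (odd sum).

Proof. On pairs of odd integers put `F(a, b) = (b, c)` for `c = (b - a)/2` odd and `F(a, b) = (b + c, b + 2c)` for `c`
even: one, respectively three steps of the recurrence. Every pair of odd integers `u` has exactly the two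
preimages `A u = (p - 2q, p)` and `B u = (4p - 3q, 2p - q)`, again pairs of odd integers, coprime if `u` is.
Let `Q(x, y) = x^2 - x y + 2 y^2` and `Φ(u) = g(u) Q(u)^(-4/5)` with a positive function `g` of the direction of `u`
which is constant on each of 1600 cones. The table `DatOne` is a certificate, checked by the kernel, for
`Φ(A u) + Φ(B u) ≥ 1.001 Φ(u)`. Sum this over the set `S` of the pairs in question in the box: the children
inside the box are distinct elements of `S`, those outside contribute at most `M R^(-8/5)` each, so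
`0.001 Φ(1, 1) ≤ 2 |S| M R^(-8/5)`.
-/

set_option autoImplicit false

namespace Pool.Agent.Results.MP_2a27b1_nt.PeriodicPairsQ1

open Pool.Agent.Helper97.PR

theorem result : ∃ c : ℝ, 0 < c ∧ ∀ R : ℕ, 1 ≤ R →
    c * (R : ℝ) ^ (8 / 5 : ℝ) ≤ ((periodicPairs 1 R).ncard : ℝ) := by
  have h := main_one (tab_of_chk chkOne) (by decide) rfl
  have e : (2 * (((pmOne.m : ℕ) : ℝ) / ((pmOne.n : ℕ) : ℝ))) = (8 / 5 : ℝ) := by
    have h1 : pmOne.m = 4 := rfl
    have h2 : pmOne.n = 5 := rfl
    rw [h1, h2]
    norm_num
  rw [e] at h
  exact h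

end Pool.Agent.Results.MP_2a27b1_nt.PeriodicPairsQ1
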